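import Pool.Agent.H38.ML.SpecBridge
import Pool.Agent.H36.RT.Final

/-!
The lower bound of the conjectured order in Malle's conjecture over all sufficiently large base
fields, for transitive groups whose elements of least index sit in the middle of the group. The
definitions used in the statement are in `Pool/Agent/H38/ML/Spec.lean`. There is no hypothesis on
`G ⧸ N`: `H36.RT.realizable_all` proves that every finite group is the Galois group of an extension
of every sufficiently large number field.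
-/

open H38.ML.Spec

theorem Pool.Agent.Results.MP_b39724_nt.LargeBaseFields.result
    (n : ℕ) (hn : 2 ≤ n) (G : Subgroup (Equiv.Perm (Fin n)))
    (hG : MulAction.IsPretransitive G (Fin n))
    (T N : Subgroup G) (hT : T.Normal) (hN : N.Normal) (hTN : ⁅T, T⁆ ≤ N)
    (htower : GoodTower N)
    (hne : ∃ g ∈ T, g ≠ 1 ∧ ind (g : Equiv.Perm (Fin n)) = indG G ∧
      Nat.Coprime (orderOf g) (Nat.card N)) :
    ∃ K₀ : IntermediateField ℚ (AlgebraicClosure ℚ), NumberField K₀ ∧
      ∀ K : IntermediateField ℚ (AlgebraicClosure ℚ), K₀ ≤ K → ∀ _ : NumberField K,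
        (∃ c : ℝ, 0 < c ∧ ∃ B₀ : ℝ, ∀ B : ℝ, B₀ ≤ B →
          ((⌈c * B ^ (1 / (indG G : ℝ)) *
              Real.log B ^ (beta K (AlgebraicClosure ℚ) G T N - 1)⌉₊ : ℕ) : ℕ∞) ≤
            nK K (AlgebraicClosure ℚ) G B) ∧
        ((∀ g : G, g ≠ 1 → ind (g : Equiv.Perm (Fin n)) = indG G →
          g ∈ T ∧ Nat.Coprime (orderOf g) (Nat.card N)) →
            beta K (AlgebraicClosure ℚ) G T N = betaAll K (AlgebraicClosure ℚ) G) := by
  obtain ⟨g, hg⟩ := hne
  obtain ⟨K₀, hK₀, h⟩ := H38.ML.lower_bound hn G hG T N hT hN hTN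
    (H38.ML.goodTower_of_spec htower)
    (H38.ML.realizable_of_spec (H36.RT.realizable_all (G ⧸ N))) ⟨⟨g, hg⟩⟩
  refine ⟨K₀, NumberField.of_module_finite ℚ K₀, fun K hK hKf => ⟨?_, fun hall => ?_⟩⟩
  · obtain ⟨c, hc, B₀, hB⟩ := h K hK hKf.to_finiteDimensional
    exact ⟨c, hc, B₀, fun B hBB => (hB B hBB).trans (H38.ML.nK_le_spec hn G K B)⟩
  · exact H38.ML.beta_eq_betaAll G K T N hall
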